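import Pool.Agent.Y117.SG.Fin

/-!
# MP_fefad7_co: the upper half of Q1, for both games and for every fixed `k`

The ratios of Q1 have upper limit at most `1` (as `n` tends to infinity), for every `k ≥ 3` in the
Waiter-Client game and for every `k ≥ 2` in the Client-Waiter game. The definitions of the games and
of the threshold biases are in `Pool.Agent.Y117.SG.Game`.
-/

set_option autoImplicit false

open Filter Pool.Agent.Y117.SG

namespace Pool.Agent.Results.MP_fefad7_co.SharpUpperHalf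

theorem result :
    -- Waiter-Client game, every fixed k ≥ 3
    (∀ k : ℕ, 3 ≤ k → ∀ ε : ℝ, 0 < ε → ε ≤ 1 → ∀ᶠ n : ℕ in atTop,
      (∀ q : ℕ, (1 + ε) * (n * q * Real.log 2) ≤ (n.choose k : ℝ) →
        Forces (offerWC q) (fun Y => ¬ Sat Y) (board n k) ∅) ∧
      1 / (n : ℝ) * (n.choose k : ℝ) * ((bWC n k : ℝ))⁻¹ / Real.log 2 ≤ 1 + ε) ∧
    -- Client-Waiter game, every fixed k ≥ 2
    (∀ k : ℕ, 2 ≤ k → ∀ ε : ℝ, 0 < ε → ∀ᶠ n : ℕ in atTop,
      1 / (n : ℝ) * (n.choose k : ℝ) * ((bCW n k : ℝ))⁻¹ / Real.log 2 ≤ 1 + ε) ∧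
    -- Client-Waiter game, all n, k and q
    (∀ n k q : ℕ, (n : ℝ) * ((q : ℝ) + 1) * Real.log 2 < (n.choose k : ℝ) →
      ¬ Forces (offerCW q) (Sat (n := n)) (board n k) ∅) := by
  refine ⟨fun k hk ε hε hε1 => ?_, fun k hk ε hε => cw_ratio k hk ε hε, cw_final⟩
  filter_upwards [wc_final k hk ε hε hε1, wc_ratio k hk ε hε] with n h1 h2
  exact ⟨h1, h2⟩

end Pool.Agent.Results.MP_fefad7_co.SharpUpperHalf
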